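import Pool.Agent.Work.MP_e3f5d9_al_helper91.CxG
import Pool.Agent.Work.MP_e3f5d9_al_helper91.RealK
import Pool.Agent.Work.MP_e3f5d9_al_real48.RM

/-!
# The iterated monodromy groups of intermediate growth on the real line

`PCF.postCrit`, `PCF.Vertex`, `PCF.ActsAs` and `PCF.IMG` (file `Work/MP_80ff4e_al/Defs.lean`) are the
post-critical set, the tree of preimages of the base point, the action of a loop on it by path
lifting, and the iterated monodromy group.  `R4.IntermediateGrowth` is in
`Work/MP_e3f5d9_al/Defs.lean`.  `R4.Renormalizable` (file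
`Work/MP_e3f5d9_al_helper91/RenormDef.lean`) is the notion of the problem.
-/

set_option autoImplicit false

open Polynomial

namespace Pool.Agent.Results.MP_e3f5d9_al.RealLine

/-- Let `c` be real, `z ^ 2 + c` post-critically finite and non-renormalizable, and let `t` be a
base point outside the post-critical set.  The iterated monodromy group of `z ^ 2 + c` has
intermediate growth if and only if `c` is neither `0` nor `-2`. -/
theorem result (c : ℝ) (hfin : (PCF.postCrit (X ^ 2 + C (c : ℂ))).Finite)
    (hnr : ¬ R4.Renormalizable (c : ℂ)) (t : ℂ) (ht : t ∉ PCF.postCrit (X ^ 2 + C (c : ℂ))) :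
    R4.IntermediateGrowth (PCF.IMG (X ^ 2 + C (c : ℂ)) t) ↔ c ≠ 0 ∧ c ≠ -2 := by
  have hfin' : {x : ℝ | ∃ n, 1 ≤ n ∧ x = RealB.orb c n}.Finite := by
    have : {x : ℝ | ∃ n, 1 ≤ n ∧ x = RealB.orb c n} =
        (fun x : ℝ => (x : ℂ)) ⁻¹' PCF.postCrit (RealB.qf c) := by
      ext x
      simp only [Set.mem_preimage, RealB.mem_postCrit]
      constructor
      · rintro ⟨n, hn, h⟩; exact ⟨n, hn, by rw [h]⟩
      · rintro ⟨n, hn, h⟩; exact ⟨n, hn, by exact_mod_cast h⟩
    rw [this]
    exact hfin.preimage (fun x _ y _ h => by exact_mod_cast h)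
  exact RealB.real_final (fun _ _ _ _ _ h hm => R4.Rl.growth_real h hm) c hfin
    (fun h => hnr (RealB.renormalizable_of_real hfin' h)) t ht

end Pool.Agent.Results.MP_e3f5d9_al.RealLine
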