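import Pool.Agent.Work.MP_e3f5d9_al.Main
import Pool.Agent.Work.MP_e3f5d9_al.B12Ex

/-!
# Intermediate growth of rigid kneading automaton groups

The group of a kneading datum `(v, w)` is the automaton group that is isomorphic to the iterated
monodromy group of `z ^ 2 + c` if the critical value `c` has the kneading sequence `v w w w ...`.
All definitions are in `Pool/Agent/Work/MP_e3f5d9_al/Defs.lean`.
-/

set_option autoImplicit false

open R4

namespace Pool.Agent.Results.MP_e3f5d9_al.RigidKneading

/-- `D` is the kneading system of the datum `(v, w)`. -/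
def IsDatum (v w : List Bool) (D : KS (Fin (v.length + w.length))) : Prop :=
  D.o.1 = 0 ∧ D.nxt = ksNxt v w ∧ D.side = ksSide v w

/-- The combinatorial criterion: some class of cuts is mixing, all letters are leaves, every letter
alternates with the swapping letter by the closure rules, and the two letters with the same image
have a product of finite order. -/
def Criterion {L : Type} [Fintype L] [DecidableEq L] (D : KS L) : Prop :=
  (∃ E, D.Rigid E) ∧ ∀ p q, p ≠ q → D.nxt p = D.nxt q → D.FO p q

/-- The families `(1, 0^a 1 0^b)` with `b ≥ 1` and `(1 0^k 1, 0)`. -/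
def Family (v w : List Bool) : Prop :=
  (∃ a b : ℕ, 1 ≤ b ∧ v = [true] ∧ w = List.replicate a false ++ true :: List.replicate b false) ∨
    ∃ k : ℕ, v = true :: (List.replicate k false ++ [true]) ∧ w = [false]

/-- For every kneading datum that satisfies the criterion or belongs to one of the two families,
the group has intermediate growth. -/
theorem result (v w : List Bool) (h : Valid v w) :
    ∃ D : KS (Fin (v.length + w.length)), IsDatum v w D ∧
      (Criterion D ∨ Family v w → IntermediateGrowth D.grp) := by
  obtain ⟨D, h0, hn, hs⟩ := b11 v w h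
  refine ⟨D, ⟨h0, hn, hs⟩, ?_⟩
  rintro (⟨⟨E, hE⟩, hFO⟩ | ⟨a, b, hb, rfl, rfl⟩ | ⟨k, rfl, rfl⟩)
  · exact stage0 D E hE hFO
  · obtain ⟨⟨E, hE⟩, hFO⟩ := (Ex.stage0_one a b hb).2 D h0 hn hs
    exact stage0 D E hE hFO
  · obtain ⟨⟨E, hE⟩, hFO⟩ := (Ex.stage0_two k).2 D h0 hn hs
    exact stage0 D E hE hFO

end Pool.Agent.Results.MP_e3f5d9_al.RigidKneading
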